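import Mathlib

/-!
# Quasi-isometric embeddings `X → X × ℝ` that are not Lipschitz graphs

We show that real hyperbolic space `H`, and more generally every `L²`-product `X = H × Y` with an
arbitrary nonempty metric space `Y`, admits a bi-Lipschitz (in particular quasi-isometric)
embedding `f : X → X × ℝ` whose image is at infinite Hausdorff distance from the graph of every
function `h : X → ℝ`.

The map folds `H` along a totally geodesic hyperplane and uses the signed distance to this
hyperplane as the last coordinate.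
-/

set_option autoImplicit false

open Real

namespace Pool.Agent.Results.MP_44e237_gt.FoldedHyperbolic

/-- The upper half-space `{(x, y) : x ∈ ℝⁿ, y > 0}`. With the distance below this is the upper
half-space model of the real hyperbolic space of dimension `n + 1` (curvature `-1`). -/
@[ext]
structure HypSpace (n : ℕ) where
  /-- the horizontal coordinate, in Euclidean space `ℝⁿ` -/
  x : EuclideanSpace ℝ (Fin n)
  /-- the height -/
  y : ℝ
  /-- the height is positive -/
  pos : 0 < y

namespace HypSpace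

variable {n : ℕ}

/-- The Euclidean distance of two points of the upper half-space. -/
noncomputable def euc (p q : HypSpace n) : ℝ := √(‖p.x - q.x‖ ^ 2 + (p.y - q.y) ^ 2)

/-- The hyperbolic distance of the upper half-space model,
`d(p, q) = 2 arsinh (|p - q| / (2 √(y(p) y(q))))`, with `|p - q|` the Euclidean distance. -/
noncomputable instance : Dist (HypSpace n) :=
  ⟨fun p q => 2 * arsinh (euc p q / (2 * √(p.y * q.y)))⟩

theorem dist_eq (p q : HypSpace n) :
    dist p q = 2 * arsinh (euc p q / (2 * √(p.y * q.y))) := rfl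

theorem euc_nonneg (p q : HypSpace n) : 0 ≤ euc p q := Real.sqrt_nonneg _

theorem euc_sq (p q : HypSpace n) : euc p q ^ 2 = ‖p.x - q.x‖ ^ 2 + (p.y - q.y) ^ 2 := by
  unfold euc
  rw [Real.sq_sqrt (by positivity)]

theorem sinh_half_dist (p q : HypSpace n) :
    sinh (dist p q / 2) = euc p q / (2 * √(p.y * q.y)) := by
  rw [dist_eq, mul_div_cancel_left₀ (arsinh _) two_ne_zero, sinh_arsinh]

/-- The point of Euclidean space under the point `p` of the upper half space. -/
noncomputable def toE (p : HypSpace n) : WithLp 2 (EuclideanSpace ℝ (Fin n) × ℝ) :=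
  WithLp.toLp 2 (p.x, p.y)

/-- The mirror image in the lower half space. -/
noncomputable def toEconj (p : HypSpace n) : WithLp 2 (EuclideanSpace ℝ (Fin n) × ℝ) :=
  WithLp.toLp 2 (p.x, -p.y)

theorem dist_toE (p q : HypSpace n) : dist (toE p) (toE q) = euc p q := by
  rw [WithLp.prod_dist_eq_of_L2]
  simp [toE, euc, dist_eq_norm, Real.norm_eq_abs, sq_abs]

theorem dist_toE_conj (p q : HypSpace n) :
    dist (toE p) (toEconj q) = √(‖p.x - q.x‖ ^ 2 + (p.y + q.y) ^ 2) := by
  rw [WithLp.prod_dist_eq_of_L2]
  simp [toE, toEconj, dist_eq_norm, Real.norm_eq_abs, sq_abs]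

theorem dist_toE_conj_comm (p q : HypSpace n) :
    dist (toE p) (toEconj q) = dist (toE q) (toEconj p) := by
  rw [dist_toE_conj, dist_toE_conj, norm_sub_rev, add_comm p.y]

theorem dist_toE_conj_self (p : HypSpace n) : dist (toE p) (toEconj p) = 2 * p.y := by
  rw [dist_toE_conj, sub_self, norm_zero]
  rw [show (0 : ℝ) ^ 2 + (p.y + p.y) ^ 2 = (2 * p.y) ^ 2 by ring]
  exact Real.sqrt_sq (by have := p.pos; positivity)

theorem cosh_half_dist (p q : HypSpace n) :
    cosh (dist p q / 2) = dist (toE p) (toEconj q) / (2 * √(p.y * q.y)) := by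
  have hp := p.pos
  have hq := q.pos
  rw [← sq_eq_sq₀ (Real.cosh_pos _).le (by positivity), cosh_sq', sinh_half_dist, div_pow, div_pow,
    mul_pow, sq_sqrt (by positivity), euc_sq, dist_toE_conj, sq_sqrt (by positivity)]
  field_simp
  ring

theorem cosh_dist (p q : HypSpace n) :
    cosh (dist p q) = 1 + (‖p.x - q.x‖ ^ 2 + (p.y - q.y) ^ 2) / (2 * p.y * q.y) := by
  have hp := p.pos
  have hq := q.pos
  have h : dist p q = 2 * (dist p q / 2) := by ring
  rw [h, cosh_two_mul, cosh_sq', sinh_half_dist, div_pow, mul_pow, sq_sqrt (by positivity), euc_sq]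
  field_simp
  ring

theorem dist_nonneg' (p q : HypSpace n) : 0 ≤ dist p q := by
  rw [dist_eq]
  have hp := p.pos
  have hq := q.pos
  have : 0 ≤ euc p q / (2 * √(p.y * q.y)) := div_nonneg (euc_nonneg p q) (by positivity)
  have := arsinh_nonneg_iff.2 this
  positivity

theorem dist_comm' (p q : HypSpace n) : dist p q = dist q p := by
  rw [dist_eq, dist_eq, mul_comm p.y q.y]
  congr 3
  unfold euc
  rw [norm_sub_rev]
  congr 2
  ring

theorem dist_triangle' (a b c : HypSpace n) : dist a c ≤ dist a b + dist b c := by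
  have ha := a.pos
  have hb := b.pos
  have hc := c.pos
  have hsa : 0 < √(a.y) := Real.sqrt_pos.2 ha
  have hsb : 0 < √(b.y) := Real.sqrt_pos.2 hb
  have hsc : 0 < √(c.y) := Real.sqrt_pos.2 hc
  have key : sinh (dist a c / 2) ≤ sinh ((dist a b + dist b c) / 2) := by
    rw [add_div, sinh_add, sinh_half_dist, sinh_half_dist, sinh_half_dist, cosh_half_dist,
      cosh_half_dist]
    rw [Real.sqrt_mul ha.le, Real.sqrt_mul ha.le, Real.sqrt_mul hb.le]
    have pt := EuclideanGeometry.mul_dist_le_mul_dist_add_mul_dist (toE a) (toE b) (toE c)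
      (toEconj b)
    rw [dist_toE, dist_toE, dist_toE, dist_toE_conj_self, dist_toE_conj_comm c b] at pt
    have hb2 : √(b.y) * √(b.y) = b.y := Real.mul_self_sqrt hb.le
    rw [div_mul_div_comm, div_mul_div_comm, ← add_div, div_le_div_iff₀ (by positivity)
      (by positivity)]
    have e1 : 2 * (√a.y * √b.y) * (2 * (√b.y * √c.y)) = (2 * (√a.y * √c.y)) * (2 * b.y) := by
      linear_combination (4 * √a.y * √c.y) * hb2
    rw [e1]
    have h0 : 0 ≤ 2 * (√a.y * √c.y) := by positivity
    nlinarith [mul_le_mul_of_nonneg_left pt h0]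
  have := sinh_le_sinh.1 key
  linarith

noncomputable instance : MetricSpace (HypSpace n) where
  dist_self p := by simp [dist_eq, euc]
  dist_comm := dist_comm'
  dist_triangle := dist_triangle'
  eq_of_dist_eq_zero := by
    intro p q h
    have hp := p.pos
    have hq := q.pos
    have hs : 0 < √(p.y * q.y) := Real.sqrt_pos.2 (mul_pos hp hq)
    have h1 : euc p q ^ 2 = 0 := by
      have h2 := sinh_half_dist p q
      rw [h, zero_div, sinh_zero] at h2
      have h3 : euc p q = 0 := by
        rcases div_eq_zero_iff.1 h2.symm with h4 | h4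
        · exact h4
        · exfalso; linarith
      rw [h3]; norm_num
    rw [euc_sq] at h1
    have h4 : ‖p.x - q.x‖ ^ 2 = 0 := by nlinarith [sq_nonneg ‖p.x - q.x‖, sq_nonneg (p.y - q.y)]
    have h5 : (p.y - q.y) ^ 2 = 0 := by nlinarith [sq_nonneg ‖p.x - q.x‖, sq_nonneg (p.y - q.y)]
    have h6 : p.x = q.x := by
      have := pow_eq_zero_iff (two_ne_zero) |>.1 h4
      exact sub_eq_zero.1 (norm_eq_zero.1 this)
    have h7 : p.y = q.y := sub_eq_zero.1 (pow_eq_zero_iff (two_ne_zero) |>.1 h5)
    exact HypSpace.ext h6 h7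

/-- Consistency check: for `n = 1` the space `HypSpace 1` is isometric to Mathlib's hyperbolic
plane, the upper half-plane `ℍ` with its Poincare distance. -/
theorem exists_isometryEquiv_upperHalfPlane :
    Nonempty (HypSpace 1 ≃ᵢ UpperHalfPlane) := by
  refine ⟨⟨⟨fun p => ⟨⟨p.x 0, p.y⟩, p.pos⟩, fun z => ⟨WithLp.toLp 2 fun _ => z.re, z.im, z.im_pos⟩,
    fun p => ?_, fun z => ?_⟩, ?_⟩⟩
  · apply HypSpace.ext
    · ext j
      rw [Subsingleton.elim j 0]
      rfl
    · rfl
  · rfl
  · apply Isometry.of_dist_eq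
    intro p q
    rw [UpperHalfPlane.dist_eq, dist_eq]
    congr 3
    rw [euc, Complex.dist_eq, Complex.norm_eq_sqrt_sq_add_sq, EuclideanSpace.norm_sq_eq]
    simp

/-- Splitting off the square of one coordinate from the Euclidean norm. -/
theorem norm_sub_sq_split (i : Fin n) (u v : EuclideanSpace ℝ (Fin n)) :
    ‖u - v‖ ^ 2 = (u i - v i) ^ 2 + ∑ j ∈ Finset.univ.erase i, (u j - v j) ^ 2 := by
  rw [EuclideanSpace.norm_sq_eq, ← Finset.add_sum_erase _ _ (Finset.mem_univ i)]
  simp [Real.norm_eq_abs, sq_abs]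

/-- Replace the `i`-th horizontal coordinate by the real number `t`. -/
noncomputable def setCoord (i : Fin n) (t : ℝ) (p : HypSpace n) : HypSpace n :=
  ⟨WithLp.toLp 2 (Function.update p.x i t), p.y, p.pos⟩

/-- The folding map along the totally geodesic hyperplane `{x i = 0}`: the half space
`{x i < 0}` is reflected onto the half space `{x i > 0}`. -/
noncomputable def fold (i : Fin n) (p : HypSpace n) : HypSpace n := setCoord i |p.x i| p

/-- The reflection in the totally geodesic hyperplane `{x i = 0}`. -/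
noncomputable def refl (i : Fin n) (p : HypSpace n) : HypSpace n := setCoord i (-p.x i) p

/-- The signed distance to the totally geodesic hyperplane `{x i = 0}`. -/
noncomputable def height (i : Fin n) (p : HypSpace n) : ℝ := arsinh (p.x i / p.y)

theorem norm_setCoord_sub_sq (i : Fin n) (s t : ℝ) (p q : HypSpace n) :
    ‖(setCoord i s p).x - (setCoord i t q).x‖ ^ 2 =
      (s - t) ^ 2 + ∑ j ∈ Finset.univ.erase i, (p.x j - q.x j) ^ 2 := by
  rw [norm_sub_sq_split i]
  congr 1
  · simp [setCoord]
  · apply Finset.sum_congr rfl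
    intro j hj
    have : j ≠ i := (Finset.mem_erase.1 hj).1
    simp [setCoord, this]

theorem dist_eq_of_norm_eq {p q p' q' : HypSpace n} (hp : p.y = p'.y) (hq : q.y = q'.y)
    (h : ‖p.x - q.x‖ ^ 2 = ‖p'.x - q'.x‖ ^ 2) : dist p q = dist p' q' := by
  rw [dist_eq, dist_eq, euc, euc, hp, hq, h]

theorem dist_le_of_norm_le {p q p' q' : HypSpace n} (hp : p.y = p'.y) (hq : q.y = q'.y)
    (h : ‖p.x - q.x‖ ^ 2 ≤ ‖p'.x - q'.x‖ ^ 2) : dist p q ≤ dist p' q' := by
  rw [dist_eq, dist_eq, euc, euc, hp, hq]
  have : √(‖p.x - q.x‖ ^ 2 + (p'.y - q'.y) ^ 2) ≤ √(‖p'.x - q'.x‖ ^ 2 + (p'.y - q'.y) ^ 2) :=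
    Real.sqrt_le_sqrt (by linarith)
  have h2 : √(‖p.x - q.x‖ ^ 2 + (p'.y - q'.y) ^ 2) / (2 * √(p'.y * q'.y)) ≤
      √(‖p'.x - q'.x‖ ^ 2 + (p'.y - q'.y) ^ 2) / (2 * √(p'.y * q'.y)) :=
    div_le_div_of_nonneg_right this (by positivity)
  have := arsinh_le_arsinh.2 h2
  linarith

/-- Folding does not increase distances. -/
theorem dist_fold_le (i : Fin n) (p q : HypSpace n) : dist (fold i p) (fold i q) ≤ dist p q := by
  refine dist_le_of_norm_le (p' := p) (q' := q) rfl rfl ?_
  rw [fold, fold, norm_setCoord_sub_sq, norm_sub_sq_split i]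
  have := abs_abs_sub_abs_le_abs_sub (p.x i) (q.x i)
  have := sq_le_sq.2 this
  linarith

/-- Folding is isometric on points lying on the same side. -/
theorem dist_fold_of_same_side (i : Fin n) (p q : HypSpace n) (h : 0 ≤ p.x i * q.x i) :
    dist (fold i p) (fold i q) = dist p q := by
  refine dist_eq_of_norm_eq (p' := p) (q' := q) rfl rfl ?_
  rw [fold, fold, norm_setCoord_sub_sq, norm_sub_sq_split i]
  congr 1
  have h1 : |p.x i| * |q.x i| = p.x i * q.x i := by rw [← abs_mul, abs_of_nonneg h]
  nlinarith [sq_abs (p.x i), sq_abs (q.x i)]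

/-- Folding one of two points lying on different sides. -/
theorem dist_fold_of_diff_side (i : Fin n) (p q : HypSpace n) (h : p.x i * q.x i ≤ 0) :
    dist (fold i p) (fold i q) = dist p (refl i q) := by
  refine dist_eq_of_norm_eq (p' := p) (q' := refl i q) rfl rfl ?_
  rw [fold, fold, norm_setCoord_sub_sq, refl, norm_sub_sq_split i]
  congr 1
  · have h1 : |p.x i| * |q.x i| = -(p.x i * q.x i) := by rw [← abs_mul, abs_of_nonpos h]
    simp only [setCoord, Function.update_self]
    nlinarith [sq_abs (p.x i), sq_abs (q.x i)]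
  · apply Finset.sum_congr rfl
    intro j hj
    have : j ≠ i := (Finset.mem_erase.1 hj).1
    simp [setCoord, this]

/-- A point and its mirror image have distance twice the distance to the mirror. -/
theorem dist_refl_self (i : Fin n) (p : HypSpace n) : dist (refl i p) p = 2 * |height i p| := by
  have hp := p.pos
  have h0 : p = setCoord i (p.x i) p := by
    apply HypSpace.ext
    · ext j
      by_cases hj : j = i
      · subst hj; simp [setCoord]
      · simp [setCoord]
    · rfl
  have h1 : ‖(refl i p).x - p.x‖ ^ 2 = (2 * |p.x i|) ^ 2 := by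
    conv_lhs => rw [h0]
    rw [refl, norm_setCoord_sub_sq]
    simp [setCoord]
    rw [mul_pow, sq_abs]
    ring
  have h2 : (refl i p).y = p.y := rfl
  have h3 : arsinh |p.x i / p.y| = |arsinh (p.x i / p.y)| := by
    rcases le_total 0 (p.x i / p.y) with h | h
    · rw [abs_of_nonneg h, abs_of_nonneg (arsinh_nonneg_iff.2 h)]
    · rw [abs_of_nonpos h, abs_of_nonpos (arsinh_nonpos_iff.2 h), arsinh_neg]
  rw [dist_eq, euc, h1, h2, sub_self, height, ← h3, Real.sqrt_mul_self hp.le,
    show (2 * |p.x i|) ^ 2 + (0 : ℝ) ^ 2 = (2 * |p.x i|) ^ 2 by ring,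
    Real.sqrt_sq (by positivity), abs_div, abs_of_pos hp, mul_div_mul_left _ _ two_ne_zero]

/-- The signed distance to the mirror is `1`-Lipschitz. -/
theorem abs_height_sub_le (i : Fin n) (p q : HypSpace n) :
    |height i p - height i q| ≤ dist p q := by
  have hp := p.pos
  have hq := q.pos
  have hd : 0 ≤ dist p q := dist_nonneg
  rw [← abs_of_nonneg hd, ← cosh_le_cosh, cosh_dist, cosh_sub, height, height, cosh_arsinh,
    cosh_arsinh, sinh_arsinh, sinh_arsinh, norm_sub_sq_split i]
  set s := p.x i
  set t := q.x i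
  set N := ∑ j ∈ Finset.univ.erase i, (p.x j - q.x j) ^ 2
  have hN : 0 ≤ N := Finset.sum_nonneg fun j _ => sq_nonneg _
  have h1 : √(1 + (s / p.y) ^ 2) = √(p.y ^ 2 + s ^ 2) / p.y := by
    rw [eq_div_iff hp.ne', ← Real.sqrt_sq hp.le, ← Real.sqrt_mul (by positivity),
      Real.sqrt_sq hp.le]
    congr 1
    field_simp
  have h2 : √(1 + (t / q.y) ^ 2) = √(q.y ^ 2 + t ^ 2) / q.y := by
    rw [eq_div_iff hq.ne', ← Real.sqrt_sq hq.le, ← Real.sqrt_mul (by positivity),
      Real.sqrt_sq hq.le]
    congr 1
    field_simp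
  rw [h1, h2]
  have ha := Real.sq_sqrt (show 0 ≤ p.y ^ 2 + s ^ 2 by positivity)
  have hb := Real.sq_sqrt (show 0 ≤ q.y ^ 2 + t ^ 2 by positivity)
  set a := √(p.y ^ 2 + s ^ 2)
  set b := √(q.y ^ 2 + t ^ 2)
  have e1 : a / p.y * (b / q.y) - s / p.y * (t / q.y) = (2 * (a * b - s * t)) / (2 * p.y * q.y) := by
    field_simp
  have e2 : 1 + ((s - t) ^ 2 + N + (p.y - q.y) ^ 2) / (2 * p.y * q.y) =
      (a ^ 2 + b ^ 2 - 2 * s * t + N) / (2 * p.y * q.y) := by
    rw [ha, hb]
    field_simp
    ring
  rw [e1, e2]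
  apply div_le_div_of_nonneg_right _ (by positivity)
  nlinarith [sq_nonneg (a - b)]

/-- The main estimate: the distance is controlled by the folded distance and the difference of
the heights. -/
theorem dist_le_fold_add (i : Fin n) (p q : HypSpace n) :
    dist p q ≤ dist (fold i p) (fold i q) + 2 * |height i p - height i q| := by
  rcases le_total 0 (p.x i * q.x i) with h | h
  · rw [dist_fold_of_same_side i p q h]
    have : 0 ≤ |height i p - height i q| := abs_nonneg _
    linarith
  · rw [dist_fold_of_diff_side i p q h]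
    have h1 : |height i q| ≤ |height i p - height i q| := by
      have hp := p.pos
      have hq := q.pos
      unfold height
      rcases le_total 0 (p.x i) with h2 | h2
      · rcases h2.eq_or_lt with h3 | h3
        · rw [← h3]; simp
        · have h4 : q.x i ≤ 0 := by
            by_contra h5
            push Not at h5
            have := mul_pos h3 h5
            linarith
          have h5 : 0 ≤ arsinh (p.x i / p.y) := arsinh_nonneg_iff.2 (by positivity)
          have h6 : arsinh (q.x i / q.y) ≤ 0 :=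
            arsinh_nonpos_iff.2 (div_nonpos_of_nonpos_of_nonneg h4 hq.le)
          rw [abs_of_nonpos h6, abs_of_nonneg (by linarith)]
          linarith
      · rcases h2.eq_or_lt with h3 | h3
        · rw [h3]; simp
        · have h4 : 0 ≤ q.x i := by
            by_contra h5
            push Not at h5
            have := mul_pos_of_neg_of_neg h3 h5
            linarith
          have h5 : arsinh (p.x i / p.y) ≤ 0 :=
            arsinh_nonpos_iff.2 (div_nonpos_of_nonpos_of_nonneg h2 hp.le)
          have h6 : 0 ≤ arsinh (q.x i / q.y) := arsinh_nonneg_iff.2 (by positivity)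
          rw [abs_of_nonneg h6, abs_of_nonpos (by linarith)]
          linarith
    calc dist p q ≤ dist p (refl i q) + dist (refl i q) q := dist_triangle _ _ _
      _ = dist p (refl i q) + 2 * |height i q| := by rw [dist_refl_self]
      _ ≤ dist p (refl i q) + 2 * |height i p - height i q| := by linarith

/-- The height of a folded point is nonnegative. -/
theorem height_fold_nonneg (i : Fin n) (p : HypSpace n) : 0 ≤ height i (fold i p) := by
  apply arsinh_nonneg_iff.2
  have := p.pos
  simp only [fold, setCoord, Function.update_self]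
  positivity

/-- There are points of every given height. -/
theorem exists_height_eq (i : Fin n) (t : ℝ) : ∃ p : HypSpace n, height i p = t := by
  refine ⟨setCoord i (sinh t) ⟨0, 1, one_pos⟩, ?_⟩
  simp [height, setCoord]

end HypSpace

open HypSpace

/-- `f` is a quasi-isometric embedding of metric spaces: there are constants `L ≥ 1` and `C ≥ 0`
with `L⁻¹ d(a, b) - C ≤ d(f a, f b) ≤ L d(a, b) + C` for all `a`, `b`. -/
def IsQIEmbedding {A B : Type*} [MetricSpace A] [MetricSpace B] (f : A → B) : Prop :=
  ∃ L : ℝ, 1 ≤ L ∧ ∃ C : ℝ, 0 ≤ C ∧ ∀ a b : A,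
    L⁻¹ * dist a b - C ≤ dist (f a) (f b) ∧ dist (f a) (f b) ≤ L * dist a b + C

/-- The distance of the `L²`-product of two metric spaces. -/
theorem dist_sq_L2 {A B : Type*} [MetricSpace A] [MetricSpace B] (a b : WithLp 2 (A × B)) :
    dist a b ^ 2 = dist a.fst b.fst ^ 2 + dist a.snd b.snd ^ 2 := by
  have h := WithLp.prod_dist_eq_add (p := 2) (by norm_num) a b
  rw [h]
  simp only [ENNReal.toReal_ofNat, Real.rpow_two]
  rw [← Real.sqrt_eq_rpow, Real.sq_sqrt (by positivity)]

/-- For every `n ≥ 1` and every nonempty metric space `Y`, let `X = H × Y` be the `L²`-product of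
the real hyperbolic space `H` of dimension `n + 1` and `Y`. There is a quasi-isometric embedding
`f` of `X` into the `L²`-product `X × ℝ` whose image is at infinite Hausdorff distance from the
graph of every function `h : X → ℝ`. -/
theorem result (n : ℕ) (hn : 1 ≤ n) (Y : Type*) [MetricSpace Y] [Nonempty Y] :
    ∃ f : WithLp 2 (HypSpace n × Y) → WithLp 2 (WithLp 2 (HypSpace n × Y) × ℝ),
      IsQIEmbedding f ∧
      ∀ h : WithLp 2 (HypSpace n × Y) → ℝ,
        Metric.hausdorffEDist (Set.range f) {z | z.snd = h z.fst} = ⊤ := by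
  obtain ⟨i⟩ : Nonempty (Fin n) := ⟨⟨0, hn⟩⟩
  obtain ⟨y₀⟩ : Nonempty Y := inferInstance
  refine ⟨fun a => WithLp.toLp 2 (WithLp.toLp 2 (fold i a.fst, a.snd), height i a.fst), ?_, ?_⟩
  · refine ⟨3, by norm_num, 0, le_rfl, fun a b => ?_⟩
    set D := dist (WithLp.toLp 2 (WithLp.toLp 2 (fold i a.fst, a.snd), height i a.fst))
      (WithLp.toLp 2 (WithLp.toLp 2 (fold i b.fst, b.snd), height i b.fst)) with hD
    have h1 : D ^ 2 = dist (fold i a.fst) (fold i b.fst) ^ 2 + dist a.snd b.snd ^ 2 +
        |height i a.fst - height i b.fst| ^ 2 := by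
      rw [hD, dist_sq_L2]
      simp only [WithLp.toLp_fst, WithLp.toLp_snd]
      rw [dist_sq_L2]
      simp only [WithLp.toLp_fst, WithLp.toLp_snd]
      rw [Real.dist_eq]
    have h2 := dist_sq_L2 a b
    have h3 := dist_fold_le i a.fst b.fst
    have h4 := abs_height_sub_le i a.fst b.fst
    have h5 := dist_le_fold_add i a.fst b.fst
    have hD0 : 0 ≤ D := dist_nonneg
    have hd0 : 0 ≤ dist a b := dist_nonneg
    have p1 : 0 ≤ dist (fold i a.fst) (fold i b.fst) := dist_nonneg
    have p2 : 0 ≤ dist a.fst b.fst := dist_nonneg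
    have p3 : 0 ≤ |height i a.fst - height i b.fst| := abs_nonneg _
    set u := dist (fold i a.fst) (fold i b.fst)
    set v := |height i a.fst - height i b.fst|
    set w := dist a.snd b.snd
    set d := dist a.fst b.fst
    constructor
    · have : dist a b ≤ 3 * D := by
        apply le_of_sq_le_sq _ (by positivity)
        rw [mul_pow, h1, h2]
        have : d ^ 2 ≤ (u + 2 * v) ^ 2 := by gcongr
        nlinarith [sq_nonneg (2 * u - v), sq_nonneg w, sq_nonneg u, sq_nonneg v]
      linarith
    · have : D ≤ 3 * dist a b := by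
        apply le_of_sq_le_sq _ (by positivity)
        rw [mul_pow, h1, h2]
        have e1 : u ^ 2 ≤ d ^ 2 := by gcongr
        have e2 : v ^ 2 ≤ d ^ 2 := by gcongr
        nlinarith [sq_nonneg w, sq_nonneg d]
      linarith
  · intro h
    refine ENNReal.eq_top_of_forall_nnreal_le fun r => ?_
    obtain ⟨p, hp⟩ := exists_height_eq i (-r : ℝ)
    let x : WithLp 2 (HypSpace n × Y) := WithLp.toLp 2 (p, y₀)
    let z : WithLp 2 (WithLp 2 (HypSpace n × Y) × ℝ) := WithLp.toLp 2 (x, h x)
    have hz : z ∈ {z : WithLp 2 (WithLp 2 (HypSpace n × Y) × ℝ) | z.snd = h z.fst} := rfl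
    rw [Metric.hausdorffEDist_comm]
    refine le_trans ?_ (Metric.infEDist_le_hausdorffEDist_of_mem hz)
    apply Metric.le_infEDist.2
    rintro _ ⟨a, rfl⟩
    rw [edist_dist, ← ENNReal.ofReal_coe_nnreal]
    apply ENNReal.ofReal_le_ofReal
    have k1 := dist_sq_L2 z
      (WithLp.toLp 2 (WithLp.toLp 2 (fold i a.fst, a.snd), height i a.fst))
    have k2 := dist_sq_L2 x (WithLp.toLp 2 (fold i a.fst, a.snd))
    simp only [WithLp.toLp_fst, WithLp.toLp_snd, z, x] at k1 k2
    have k3 : |height i p - height i (fold i a.fst)| ≤ dist p (fold i a.fst) :=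
      abs_height_sub_le i _ _
    have k4 := height_fold_nonneg i a.fst
    have k5 : (r : ℝ) ≤ dist p (fold i a.fst) := by
      rw [hp] at k3
      have := neg_le_abs (-(r : ℝ) - height i (fold i a.fst))
      linarith
    apply le_of_sq_le_sq _ dist_nonneg
    have hr : (0 : ℝ) ≤ r := r.2
    simp only [z, x]
    rw [k1, k2]
    have k6 : (r : ℝ) ^ 2 ≤ dist p (fold i a.fst) ^ 2 := by gcongr
    nlinarith [sq_nonneg (dist y₀ a.snd),
      sq_nonneg (dist (h (WithLp.toLp 2 (p, y₀))) (height i a.fst))]

end Pool.Agent.Results.MP_44e237_gt.FoldedHyperbolic
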